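import Mathlib
import Pool.Agent.J6H70.IB.Final

/-!
# Non-spherical star bodies that are homothetic to their intersection body of order `i`

For `n ≥ 3` and every real `0 < i < n - 1` (in particular for every `1 < i < n - 1`) there are
star bodies `L` of `ℝⁿ` that are not balls and for which `I_i L` is homothetic to `L`.
-/

set_option autoImplicit false

namespace Pool.Agent.Results.MP_0a1ca9_gt.NonSphericalSolutions

open MeasureTheory Set Metric

section Defs

variable {E : Type*} [NormedAddCommGroup E] [InnerProductSpace ℝ E]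

/-- The radial function `ρ_L(u) = sup {c ≥ 0 : c u ∈ L}`. -/
noncomputable def radial (L : Set E) (u : E) : ℝ := sSup {c : ℝ | 0 ≤ c ∧ c • u ∈ L}

/-- A star body: a compact set, star-shaped with respect to the origin, whose radial function is
continuous on the unit sphere. -/
structure IsStarBody (L : Set E) : Prop where
  compact : IsCompact L
  zero_mem : (0 : E) ∈ L
  star : StarConvex ℝ 0 L
  cont : ContinuousOn (radial L) (sphere (0 : E) 1)

/-- The hyperplane `u^⊥`. -/
noncomputable def hyperplane (u : E) : Submodule ℝ E := (Submodule.span ℝ {u})ᗮ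

variable [FiniteDimensional ℝ E] [MeasurableSpace E] [BorelSpace E]

/-- The spherical Lebesgue measure on the unit sphere of the hyperplane `u^⊥`. -/
noncomputable def sphereMeasure (u : E) : Measure (sphere (0 : hyperplane u) 1) :=
  (volume : Measure (hyperplane u)).toSphere

/-- The radial function of the intersection body of order `i`:
`(1 / (n - 1)) ∫ ρ_L(v) ^ i dv`, the integral being taken over the unit sphere of the hyperplane
`u^⊥` with respect to its spherical Lebesgue measure; `n` is the dimension of the space. -/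
noncomputable def orderRadial (i : ℝ) (L : Set E) (u : E) : ℝ :=
  1 / ((Module.finrank ℝ E : ℝ) - 1) *
    ∫ v, (radial L ((v : hyperplane u) : E)) ^ i ∂(sphereMeasure u)

/-- The intersection body of order `i`: the star-shaped set with radial function
`orderRadial i L`. -/
def intersectionBody (i : ℝ) (L : Set E) : Set E :=
  {x | ∃ u ∈ sphere (0 : E) 1, ∃ c : ℝ, 0 ≤ c ∧ c ≤ orderRadial i L u ∧ x = c • u}

end Defs

/-- For `n ≥ 3` and real `0 < i < n - 1` there is `c₀ > 0` such that every point `p ≠ 0` with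
`|p| < c₀` is the centre of symmetry of a star body `L` of `ℝⁿ` which contains a ball about the
origin, whose boundary meets the axis `ℝ p` at distance `1` from `p`, which is not a ball (of any
centre and radius), and whose intersection body of order `i` is homothetic to `L`:
`I_i L = - r p + r L` with `r > 0`. -/
theorem result {n : ℕ} (hn : 3 ≤ n) {i : ℝ} (hi : 0 < i) (hin : i < (n : ℝ) - 1) :
    ∃ c₀ : ℝ, 0 < c₀ ∧ ∀ p : EuclideanSpace ℝ (Fin n), p ≠ 0 → ‖p‖ < c₀ →
      ∃ L : Set (EuclideanSpace ℝ (Fin n)), IsStarBody L ∧ closedBall 0 (1 / 2) ⊆ L ∧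
        (∀ x, x ∈ L ↔ (2 : ℝ) • p - x ∈ L) ∧
        (∀ t : ℝ, p + (t / ‖p‖) • p ∈ L ↔ |t| ≤ 1) ∧
        (∀ (z : EuclideanSpace ℝ (Fin n)) (R : ℝ), L ≠ closedBall z R) ∧
        ∃ r : ℝ, 0 < r ∧ intersectionBody i L = (fun z => -(r • p) + r • z) '' L := by
  obtain ⟨j, rfl⟩ : ∃ j, n = j + 3 := ⟨n - 3, by omega⟩
  obtain ⟨c₀, hc₀, H⟩ := J6H70.IB.main j i hi (by push_cast at hin; linarith)
  refine ⟨c₀, hc₀, fun p hp hpc => ?_⟩
  have hp0 : 0 < ‖p‖ := norm_pos_iff.2 hp
  have hpe : ‖p‖ • (‖p‖⁻¹ • p) = p := by rw [smul_smul, mul_inv_cancel₀ hp0.ne', one_smul]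
  obtain ⟨L, h1, h2, h3, h4, h5, r, hr, h6⟩ := H ‖p‖ hp0 hpc (‖p‖⁻¹ • p) (by
    rw [norm_smul, norm_inv, norm_norm, inv_mul_cancel₀ hp0.ne'])
  refine ⟨L, ⟨h1.compact, h1.zero_mem, h1.star, h1.cont⟩, h2, fun x => ?_, fun t => ?_, h5, r, hr,
    ?_⟩
  · have := h3 x
    rwa [mul_smul, hpe] at this
  · have := h4 t
    rw [add_smul, hpe, smul_smul, ← div_eq_mul_inv] at this
    exact this
  · have e1 : (-(r * ‖p‖)) • (‖p‖⁻¹ • p) = -(r • p) := by
      rw [neg_smul, mul_smul, hpe]
    rw [e1] at h6
    exact h6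

end Pool.Agent.Results.MP_0a1ca9_gt.NonSphericalSolutions
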